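import Pool.Agent.H174.GM.Stmts2

/-!
# NORMM: Magog walks of length `k+1`, `k+1` versus `k` coordinates (helper154, for helper174)
-/

set_option autoImplicit false

namespace Pool.Agent.H154.GM174

open Pool.Agent.H174.GM

/-- Magog walks -/
def W (K m : ℕ) : Set (Fin (m + 1) → (Fin K → ℕ)) :=
  {w | w 0 = (fun _ => 0) ∧
    ∀ t : Fin m, Step (w t.castSucc) (w t.succ) ∧ ∀ i, 1 ≤ w t.succ i}

theorem le_time {K m : ℕ} {w : Fin (m + 1) → (Fin K → ℕ)} (hw : w ∈ W K m) :
    ∀ (t : ℕ) (ht : t < m + 1) (i : Fin K), w ⟨t, ht⟩ i ≤ t := by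
  intro t
  induction t with
  | zero =>
    intro ht i
    have h : w 0 i = 0 := by rw [hw.1]
    exact le_of_eq h
  | succ t ih =>
    intro ht i
    have h1 := (hw.2 ⟨t, by omega⟩).1.1 i
    have h2 : w (⟨t, by omega⟩ : Fin m).castSucc i ≤ t := ih (by omega) i
    have h3 : w ⟨t + 1, ht⟩ i ≤ w (⟨t, by omega⟩ : Fin m).castSucc i + 1 := h1
    omega

theorem eq_time {K m : ℕ} {w : Fin (m + 1) → (Fin K → ℕ)} (hw : w ∈ W K m) :
    ∀ (t : ℕ) (ht : t < m + 1) (i : Fin K), t ≤ i.1 + 1 → w ⟨t, ht⟩ i = t := by
  intro t
  induction t with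
  | zero =>
    intro ht i _
    have h : w 0 i = 0 := by rw [hw.1]
    exact h
  | succ t ih =>
    intro ht i hti
    have hle := le_time hw (t + 1) ht i
    refine le_antisymm hle ?_
    rcases Nat.eq_zero_or_pos i.1 with h0 | h0
    · have ht0 : t = 0 := by omega
      subst ht0
      exact (hw.2 ⟨0, by omega⟩).2 i
    · have h1 : w (⟨t, by omega⟩ : Fin m).castSucc ⟨i.1 - 1, by omega⟩ + 1 ≤ w ⟨t + 1, ht⟩ i :=
        (hw.2 ⟨t, by omega⟩).1.2 ⟨i.1 - 1, by omega⟩ i (by show i.1 - 1 + 1 = i.1; omega)
      have h2 : w (⟨t, by omega⟩ : Fin m).castSucc ⟨i.1 - 1, by omega⟩ = t :=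
        ih (by omega) ⟨i.1 - 1, by omega⟩ (by show t ≤ i.1 - 1 + 1; omega)
      omega

/-- add a last coordinate, equal to the time -/
def ext {m K : ℕ} (v : Fin m → (Fin K → ℕ)) : Fin m → (Fin (K + 1) → ℕ) :=
  fun t => Fin.snoc (α := fun _ => ℕ) (v t) t.1

theorem ext_cast {m K : ℕ} (v : Fin m → (Fin K → ℕ)) (t : Fin m) (i : Fin K) :
    ext v t i.castSucc = v t i := by
  unfold ext
  rw [Fin.snoc_castSucc]

theorem ext_last {m K : ℕ} (v : Fin m → (Fin K → ℕ)) (t : Fin m) :
    ext v t (Fin.last K) = t.1 := by
  unfold ext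
  rw [Fin.snoc_last]

theorem ext_inj {m K : ℕ} : Function.Injective (ext (m := m) (K := K)) := by
  intro v v' h
  funext t i
  rw [← ext_cast v t i, ← ext_cast v' t i, h]

theorem normm (h1 : S_WM) : Pool.Agent.H174.GM.S_NORMM := by
  intro k _
  have e1 : magogW (k + 1) (k + 1) = Set.ncard (W (k + 1) (k + 1)) := h1 (k + 1) (k + 1)
  have e2 : magogW (k + 1) k = Set.ncard (W k (k + 1)) := h1 k (k + 1)
  rw [e1, e2, ← Set.ncard_image_of_injective (W k (k + 1)) ext_inj]
  apply congrArg
  apply Set.eq_of_subset_of_subset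
  · intro w hw
    refine ⟨fun t i => w t i.castSucc, ⟨?_, ?_⟩, ?_⟩
    · funext i
      show w 0 i.castSucc = 0
      rw [hw.1]
    · intro t
      obtain ⟨⟨ha, hb⟩, hc⟩ := hw.2 t
      exact ⟨⟨fun i => ha i.castSucc, fun i j hij => hb i.castSucc j.castSucc hij⟩,
        fun i => hc i.castSucc⟩
    · funext t i
      induction i using Fin.lastCases with
      | last =>
        rw [ext_last]
        exact (eq_time hw t.1 t.2 (Fin.last k) (by
          have := t.2
          show t.1 ≤ k + 1
          omega)).symm
      | cast i => rw [ext_cast]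
  · rintro w ⟨v, hv, rfl⟩
    refine ⟨?_, ?_⟩
    · funext i
      induction i using Fin.lastCases with
      | last => rw [ext_last]; rfl
      | cast i => rw [ext_cast, hv.1]
    · intro t
      obtain ⟨⟨ha, hb⟩, hc⟩ := hv.2 t
      refine ⟨⟨?_, ?_⟩, ?_⟩
      · intro i
        induction i using Fin.lastCases with
        | last =>
          rw [ext_last, ext_last]
          exact le_of_eq rfl
        | cast i =>
          rw [ext_cast, ext_cast]
          exact ha i
      · intro i j hij
        induction i using Fin.lastCases with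
        | last =>
          exfalso
          have := j.2
          have h : k + 1 = j.1 := hij
          omega
        | cast i =>
          induction j using Fin.lastCases with
          | last =>
            rw [ext_cast, ext_last]
            have h := le_time hv t.1 (by omega) i
            have h' : v t.castSucc i ≤ t.1 := h
            show v t.castSucc i + 1 ≤ t.1 + 1
            omega
          | cast j =>
            rw [ext_cast, ext_cast]
            exact hb i j hij
      · intro i
        induction i using Fin.lastCases with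
        | last =>
          rw [ext_last]
          show 1 ≤ t.1 + 1
          omega
        | cast i =>
          rw [ext_cast]
          exact hc i

end Pool.Agent.H154.GM174
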